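import Pool.Agent.Q192.MS.GenMain
import Pool.Agent.Q192.QD.Master

/-!
# The modular Schanuel conjecture with derivatives: points `i f (x)` for functions of arbitrary, not comparable growth

Let `f_1, …, f_p` be functions which are analytic, real and positive on `[a, ∞)`, of **arbitrary** growth. The only
condition is that every nontrivial integral combination `∑ m_k f_k` is, in absolute value, much larger than `log t`. So for
functions in a Hardy field (for instance for all functions obtained from `t` and real constants by `+`, `·`, `/`, powers,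
`exp` and `log`) it suffices that no nontrivial integral combination is `O(log t)`, for instance `t`, `√2 t`, `t + √t`,
`t log t`, `exp t`, `exp t + (log t)^2`, `exp (t^2)`, `exp (t^2) + t`, `exp (exp t)`, … all together. The functions need not be
of comparable size, nor fall into blocks of comparable functions, and their differences may be much smaller than the
functions themselves, and smaller than other functions of the family.

For the modular Schanuel conjecture with derivatives the points `z = i f_k (x)` are points of the upper half-plane; if they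
are not special and pairwise inequivalent, the `3 p` numbers `j (z), j' (z), j'' (z)` and the points generate a field of
transcendence degree at least `3 p`. We consider `n`-tuples `(x_1, …, x_n)` of real algebraic numbers and the `4 p n` numbers

  `exp (-2πi z)`, `j (z)`, `j' (z)`, `j'' (z)` at all points `z = i f_(l,k) (x_l)`

(the functions may depend on the coordinate). Let `X_1, …, X_n` be **any** finite sets of algebraic numbers of degree at most
`m` and of height at most `T`, `X_l` in `[a_l, b_l]`, and let `φ_l` be the number of the different fields `ℚ(x)`, `x ∈ X_l`. We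
prove that for all `n`-tuples in `X_1 × ⋯ × X_n`, with at most

  `C T^ε ∑_l φ_l ∏_(i ≠ l) |X_i|`

exceptions, the `4 p n` numbers do not satisfy any (approximate) relation of degree at most `d` in each variable whose
coefficients are combinations of arbitrary complex numbers `ξ_1, …, ξ_g` (for instance of the monomials of bounded degree in
`π` and in values of `j`, `j'`, `j''` at other points) with coefficients which are integers of the field `ℚ(x_1, …, x_n)`, of
size at most `T^A`. The constants are uniform in the sets `X_l` and in the `ξ_i`.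

The starting result `ComparableGrowth` is for functions of comparable size, rational `x`, the constant `π` only, and
exceptional sets of size `T^(2 (n - 1) + β)`, `β` close to `2`.

Proof: the polynomials in the functions are bounded from below near infinity. The expansions in the monomials
`exp (- 2 π ∑ α_k f_k)` are treated with Dickson's lemma: the finitely many minimal exponents with nonzero coefficient
control the remainders (`Pool.Agent.Q192.MS.Gen`); the counting theorem is in `Pool.Agent.Q192.QD.Master`.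
-/

set_option autoImplicit false

open Filter

namespace Pool.Agent.Results.MP_ede373_nt.ArbitraryGrowth

/-- the normalised Eisenstein series of weight `4` -/
noncomputable def E4 (τ : ℂ) : ℂ :=
  1 + 240 * ∑' m : ℕ, ((ArithmeticFunction.sigma 3 (m + 1) : ℕ) : ℂ) *
    Complex.exp (2 * (Real.pi : ℂ) * Complex.I * τ) ^ (m + 1)

/-- the normalised Eisenstein series of weight `6` -/
noncomputable def E6 (τ : ℂ) : ℂ :=
  1 - 504 * ∑' m : ℕ, ((ArithmeticFunction.sigma 5 (m + 1) : ℕ) : ℂ) *
    Complex.exp (2 * (Real.pi : ℂ) * Complex.I * τ) ^ (m + 1)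

/-- the modular invariant `j = q⁻¹ + 744 + 196884 q + ⋯` -/
noncomputable def j (τ : ℂ) : ℂ := 1728 * E4 τ ^ 3 / (E4 τ ^ 3 - E6 τ ^ 2)

/-- `exp (-2πi z), j (z), j' (z), j'' (z)` (complex derivatives) -/
noncomputable def jet (z : ℂ) : Fin 4 → ℂ :=
  ![Complex.exp (-(2 * (Real.pi : ℂ) * Complex.I * z)), j z, deriv j z, deriv (deriv j) z]

/-- `p` functions which are analytic, real and positive on `[a, ∞)`, such that every nontrivial integral combination is
much larger than `log t` -/
structure Functions {p : ℕ} (a : ℝ) (f : Fin p → ℂ → ℂ) : Prop where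
  analytic : ∀ k, ∀ t : ℝ, a ≤ t → AnalyticAt ℂ (f k) t
  real : ∀ k, ∀ t : ℝ, a ≤ t → (f k t).im = 0
  pos : ∀ k, ∀ t : ℝ, a ≤ t → 0 < (f k t).re
  growth : ∀ m : Fin p → ℤ, m ≠ 0 →
    Tendsto (fun t : ℝ => |∑ k, (m k : ℝ) * (f k t).re| / Real.log t) atTop atTop

/-- the numbers `exp (-2πi z)`, `j (z)`, `j' (z)`, `j'' (z)` at `z = i f_k (x)` -/
noncomputable def numbers {p : ℕ} (f : Fin p → ℂ → ℂ) (x : ℂ) (q : Fin p × Fin 4) : ℂ :=
  jet (Complex.I * f q.1 x) q.2

/-- The algebraic numbers which are zeros of nonzero polynomials of degree at most `m` with integral coefficients of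
absolute value at most `T`. -/
def Numbers (m : ℕ) (T : ℝ) : Set ℂ :=
  {x | ∃ P : Polynomial ℤ, P ≠ 0 ∧ P.natDegree ≤ m ∧ (∀ i, |(P.coeff i : ℝ)| ≤ T) ∧ Polynomial.aeval x P = 0}

/-- The algebraic integers of the field generated by `S` all of whose conjugates have absolute value at most `H`. -/
def Integers (S : Set ℂ) (H : ℝ) : Set ℂ :=
  {c | c ∈ IntermediateField.adjoin ℚ S ∧ IsIntegral ℤ c ∧ ∀ z ∈ (minpoly ℚ c).aroots ℂ, ‖z‖ ≤ H}

/-- The number of the different fields `ℚ(x)`, `x ∈ X`. -/
noncomputable def fields (X : Finset ℂ) : ℕ :=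
  Set.ncard {G : IntermediateField ℚ ℂ | ∃ x ∈ X, G = IntermediateField.adjoin ℚ {x}}

/-- The `n`-tuples `x`, `x_l ∈ X_l`, for which there is a polynomial `P` of degree at most `d` in each variable, with
coefficients of the form `∑ ξ_i c_i`, where the `c_i` are integers of the field `ℚ(x_1, …, x_n)` all of whose conjugates
have absolute value at most `T ^ A`, such that the value of `P` at all the `numbers` of `x_1, …, x_n` is at most `T ^ (-B)`
times the absolute value of some nonzero coefficient of `P`. -/
def Exceptional {n p : ℕ} (d : ℕ) {g : ℕ} (f : Fin n → Fin p → ℂ → ℂ) (X : Fin n → Finset ℂ) (ξ : Fin g → ℂ)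
    (A B T : ℝ) : Set (Fin n → ℂ) :=
  {x | (∀ l, x l ∈ X l) ∧ ∃ P : MvPolynomial (Fin n × (Fin p × Fin 4)) ℂ, (∀ y, P.degreeOf y ≤ d) ∧
    (∀ s, ∃ c : Fin g → ℂ, (∀ i, c i ∈ Integers (Set.range x) (T ^ A)) ∧ P.coeff s = ∑ i, ξ i * c i) ∧
    ∃ s₀, P.coeff s₀ ≠ 0 ∧
      ‖MvPolynomial.aeval (fun y => numbers (f y.1) (x y.1) y.2) P‖ ≤ T ^ (-B) * ‖P.coeff s₀‖}

/-- For all families of functions `f_(l,1), …, f_(l,p)` on `[a_l, ∞)`, `l = 1, …, n`, all `b_l`, `m`, `g`, `d`, `A` and
`ε > 0` there are `B`, `C`, `T₀` such that for all complex numbers `ξ_1, …, ξ_g`, all `T ≥ T₀` and all finite sets `X_l` in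
`[a_l, b_l]` of algebraic numbers of degree at most `m` and height at most `T` the number of exceptional `n`-tuples in
`X_1 × ⋯ × X_n` is at most `C T^ε ∑_l (number of the fields ℚ(x), x ∈ X_l) ∏_(i ≠ l) |X_i|`. -/
theorem result {n p : ℕ} (a b : Fin n → ℝ) (f : Fin n → Fin p → ℂ → ℂ) (hf : ∀ l, Functions (a l) (f l))
    (m g d : ℕ) (A ε : ℝ) (hε : 0 < ε) :
    ∃ B C T₀ : ℝ, ∀ (ξ : Fin g → ℂ) (T : ℝ), T₀ ≤ T → ∀ X : Fin n → Finset ℂ,
      (∀ l, ∀ x ∈ X l, (∃ t : ℝ, a l ≤ t ∧ t ≤ b l ∧ (t : ℂ) = x) ∧ x ∈ Numbers m T) →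
      (Exceptional d f X ξ A B T).Finite ∧ ((Exceptional d f X ξ A B T).ncard : ℝ) ≤
        C * T ^ ε * ∑ l, (fields (X l) : ℝ) * ∏ i ∈ Finset.univ.erase l, ((X i).card : ℝ) := by
  classical
  have hg : ∀ l, Pool.Agent.Q192.MS.Gw (a l) (f l) := fun l =>
    ⟨(hf l).analytic, (hf l).real, (hf l).pos, (hf l).growth⟩
  obtain ⟨B, C, T₀, H⟩ := Pool.Agent.Q192.QD.fields_main (κ := Fin p × Fin 4) (η := Fin g) m n d
    (fun l z q => Pool.Agent.Q192.MS.yg (f l) q z) (fun l => Complex.ofReal '' Set.Icc (a l) (b l))
    (fun g l => Pool.Agent.Y124.oneV_of g (Pool.Agent.Q192.MS.yg (f l)) _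
      (isCompact_Icc.image Complex.continuous_ofReal) (fun q t ht => by
        obtain ⟨t', ht', rfl⟩ := ht
        exact Pool.Agent.Q192.MS.yg_an (hg l) q t' ht'.1) fun t ht => by
        obtain ⟨t', ht', rfl⟩ := ht
        exact Pool.Agent.Q192.MS.yg_loc (hg l) t' ht'.1) A ε hε
  refine ⟨B, C, T₀, fun ξ T hT X hX => H ξ T hT X (fun l x hx => ?_) _ ?_⟩
  · obtain ⟨⟨t, h1, h2, h3⟩, h4⟩ := hX l x hx
    exact ⟨⟨t, ⟨h1, h2⟩, h3⟩, h4⟩
  · rintro x ⟨hx, P, hPd, hPc, s₀, hs₀, hs⟩
    exact ⟨hx, P, hPd, hPc, s₀, hs₀, hs⟩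

end Pool.Agent.Results.MP_ede373_nt.ArbitraryGrowth
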