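import Pool.Agent.Y776.AxJ.Alg
import Pool.Agent.Q192.QD.Sigma

/-!
# The modular Schanuel conjecture with derivatives: tuples of algebraic points, each in its own number field

Let `τ_1, …, τ_p` be analytic functions on a connected open set `U` with values in the upper half-plane, such that no
nontrivial combination of them with integral coefficients is constant and `j(τ_i)` and `j(τ_k)` are algebraically
independent over `ℂ` for `i ≠ k`, and let `p` of the `5 p` functions

  `τ_i(x)`, `j(τ_i(x))`, `j'(τ_i(x))`, `j''(τ_i(x))`, `exp(2 π i τ_i(x))`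

be algebraic over `ℂ(x)`; for instance `p = 1`, `τ_1(x) = x`. At general algebraic `x` one expects that all other `4 p`
numbers are algebraically independent, and the `4 p n` numbers at `n` general algebraic numbers `x_1, …, x_n` as well (the
modular Schanuel conjecture with derivatives predicts `3 p n` independent numbers).

Let `X_1, …, X_n` be **any** finite sets of algebraic numbers of degree at most `m` and of height at most `T`, in given
compact sets, and let `φ_l` be the number of the different fields `ℚ(x)`, `x ∈ X_l`. We prove that for all `n`-tuples in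
`X_1 × ⋯ × X_n`, with at most

  `C T^ε ∑_l φ_l ∏_(i ≠ l) |X_i|`

exceptions, the `4 p n` numbers do not satisfy any (approximate) relation of degree at most `d` in each variable whose
coefficients are combinations of arbitrary complex numbers `ξ_1, …, ξ_g` (for instance of the monomials of bounded degree in
`π` and in other values of `j`, `j'`, `j''`) with coefficients which are integers of the field `ℚ(x_1, …, x_n)`, of size at
most `T^A`. The constants are uniform in the sets `X_l` and in the `ξ_i`. So almost all `n`-tuples are good as soon as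
`|X_l| ≥ φ_l T^(2ε)`: the sets may be sparse subsets of one number field (prime numerators and denominators, for example),
of many number fields of bounded degree, or the sets of all quadratic numbers of height at most `T` (`φ_l ≤ 5 T^2`,
`|X_l| ≥ c T^3`).

In `MP_ede373_nt.AlgebraicPointsOrNomes` the points of a tuple are in one number field `F`, and all points of `F` of
height at most `T` are considered; in `MP_f58a57_nt.NumberFieldPoints` the number field is fixed.

Proof: the counting theorem for arbitrary finite sets of quotients of elements of a ring of integers (`Pool.Agent.Y124`),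
applied in the composita of the fields, and summed over the `n`-tuples of fields; the Ax-Schanuel theorem for `j`, its
derivatives and exponentials in one variable (`Pool.Agent.Y776.AxJ`).
-/

set_option autoImplicit false

open NumberField
open scoped PeriodPair

namespace Pool.Agent.Results.MP_ede373_nt.ManyNumberFields

/-- The lattice `ℤ + ℤ τ`. -/
noncomputable def lattice (τ : ℂ) (h : 0 < τ.im) : PeriodPair where
  ω₁ := 1
  ω₂ := τ
  indep := (Y685.LL ⟨τ, h⟩).indep

/-- The modular invariant `j = 1728 g₂³ / (g₂³ - 27 g₃²)` on the upper half-plane. -/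
noncomputable def j (τ : ℂ) : ℂ :=
  if h : 0 < τ.im then 1728 * (lattice τ h).g₂ ^ 3 / ((lattice τ h).g₂ ^ 3 - 27 * (lattice τ h).g₃ ^ 2) else 0

/-- The names of the functions. -/
inductive Name (p : ℕ) : Type
  | tau : Fin p → Name p
  | j : Fin p → Name p
  | dj : Fin p → Name p
  | ddj : Fin p → Name p
  | nome : Fin p → Name p

/-- The values `τ_i(z)`, `j(τ_i(z))`, `j'(τ_i(z))`, `j''(τ_i(z))` (complex derivatives of `j`) and
`exp(2 π i τ_i(z))`. -/
noncomputable def value {p : ℕ} (τ : Fin p → ℂ → ℂ) (z : ℂ) : Name p → ℂ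
  | Name.tau i => τ i z
  | Name.j i => j (τ i z)
  | Name.dj i => deriv j (τ i z)
  | Name.ddj i => deriv (deriv j) (τ i z)
  | Name.nome i => Complex.exp (2 * (Real.pi : ℂ) * Complex.I * τ i z)

/-- `f` is algebraic over `ℂ(z)` on `U`. -/
def Algebraic (U : Set ℂ) (f : ℂ → ℂ) : Prop :=
  ∃ P : MvPolynomial (Fin 2) ℂ, P ≠ 0 ∧ ∀ z ∈ U, MvPolynomial.eval ![z, f z] P = 0

/-- An analytic curve in `ℍ^p`, and `p` of the `5 p` functions which are algebraic. -/
structure Curve (U : Set ℂ) {p : ℕ} (τ : Fin p → ℂ → ℂ) (S : Finset (Name p)) : Prop where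
  pos : 0 < p
  isOpen : IsOpen U
  isPreconnected : IsPreconnected U
  nonempty : U.Nonempty
  analytic : ∀ i, AnalyticOnNhd ℂ (τ i) U
  im_pos : ∀ i, ∀ z ∈ U, 0 < (τ i z).im
  /-- no nontrivial combination with integral coefficients is constant -/
  linear : ∀ m : Fin p → ℤ, m ≠ 0 → ∀ c : ℂ, ∃ z ∈ U, ∑ i, (m i : ℂ) * τ i z ≠ c
  /-- two of the functions `j(τ_i)` are algebraically independent over `ℂ` -/
  independent : ∀ i k, i ≠ k → ∀ P : MvPolynomial (Fin 2) ℂ, P ≠ 0 →
    ∃ z ∈ U, MvPolynomial.eval ![j (τ i z), j (τ k z)] P ≠ 0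
  card : S.card = p
  algebraic : ∀ x ∈ S, Algebraic U (fun z => value τ z x)

/-- The algebraic numbers which are zeros of nonzero polynomials of degree at most `m` with integral coefficients of
absolute value at most `T`. -/
def Numbers (m : ℕ) (T : ℝ) : Set ℂ :=
  {x | ∃ P : Polynomial ℤ, P ≠ 0 ∧ P.natDegree ≤ m ∧ (∀ i, |(P.coeff i : ℝ)| ≤ T) ∧ Polynomial.aeval x P = 0}

/-- The algebraic integers of the field generated by `S` all of whose conjugates have absolute value at most `H`. -/
def Integers (S : Set ℂ) (H : ℝ) : Set ℂ :=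
  {c | c ∈ IntermediateField.adjoin ℚ S ∧ IsIntegral ℤ c ∧ ∀ z ∈ (minpoly ℚ c).aroots ℂ, ‖z‖ ≤ H}

/-- The number of the different fields `ℚ(x)`, `x ∈ X`. -/
noncomputable def fields (X : Finset ℂ) : ℕ :=
  Set.ncard {G : IntermediateField ℚ ℂ | ∃ x ∈ X, G = IntermediateField.adjoin ℚ {x}}

/-- The `n`-tuples `x`, `x_l ∈ X_l`, for which there is a polynomial `P` of degree at most `d` in each variable, with
coefficients of the form `∑ ξ_i c_i`, where the `c_i` are integers of the field `ℚ(x_1, …, x_n)` all of whose conjugates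
have absolute value at most `T ^ A`, such that the value of `P` at the numbers `v l (x l) i` is at most `T ^ (-B)` times
the absolute value of some nonzero coefficient of `P`. -/
def Exceptional {n : ℕ} (d : ℕ) {g : ℕ} {J : Fin n → Type} (v : ∀ l, ℂ → J l → ℂ) (X : Fin n → Finset ℂ)
    (ξ : Fin g → ℂ) (A B T : ℝ) : Set (Fin n → ℂ) :=
  {x | (∀ l, x l ∈ X l) ∧ ∃ P : MvPolynomial (Σ l, J l) ℂ, (∀ y, P.degreeOf y ≤ d) ∧
    (∀ s, ∃ c : Fin g → ℂ, (∀ i, c i ∈ Integers (Set.range x) (T ^ A)) ∧ P.coeff s = ∑ i, ξ i * c i) ∧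
    ∃ s₀, P.coeff s₀ ≠ 0 ∧
      ‖MvPolynomial.aeval (fun y : Σ l, J l => v y.1 (x y.1) y.2) P‖ ≤ T ^ (-B) * ‖P.coeff s₀‖}

theorem j_eq {τ : ℂ} (h : 0 < τ.im) : j τ = Y776.jf τ := by
  have h1 : Y685.LC τ = lattice τ h := by
    rw [Y685.LC, UpperHalfPlane.ofComplex_apply_of_im_pos h]
    rfl
  rw [j, dif_pos h, Y776.jf, h1]

theorem j_ev {τ : ℂ} (h : 0 < τ.im) : j =ᶠ[nhds τ] Y776.jf := by
  filter_upwards [Y776.AxJ.isOpen_H.mem_nhds h] with σ hσ
  exact j_eq hσ

theorem dj_eq {τ : ℂ} (h : 0 < τ.im) : deriv j τ = deriv Y776.jf τ := (j_ev h).deriv_eq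

theorem dj_ev {τ : ℂ} (h : 0 < τ.im) : deriv j =ᶠ[nhds τ] deriv Y776.jf := by
  filter_upwards [Y776.AxJ.isOpen_H.mem_nhds h] with σ hσ
  exact dj_eq hσ

theorem ddj_eq {τ : ℂ} (h : 0 < τ.im) : deriv (deriv j) τ = deriv (deriv Y776.jf) τ := (dj_ev h).deriv_eq

theorem fmj {U : Set ℂ} {p : ℕ} {τ : Fin p → ℂ → ℂ} {S : Finset (Name p)} (h : Curve U τ S) :
    Y776.AxJ.Fmj U τ (fun i z => 2 * Real.pi * Complex.I * τ i z) where
  op := h.isOpen
  conn := h.isPreconnected
  ne := h.nonempty
  ta := h.analytic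
  im := h.im_pos
  nc := by
    intro i c
    obtain ⟨z, hz, hne⟩ := h.linear (Pi.single i 1) (by
      intro h0
      have := congrFun h0 i
      rw [Pi.single_eq_same] at this
      exact one_ne_zero this) c
    refine ⟨z, hz, fun h1 => hne ?_⟩
    rw [← h1, Finset.sum_eq_single i]
    · rw [Pi.single_eq_same, Int.cast_one, one_mul]
    · intro k _ hk
      rw [Pi.single_eq_of_ne hk, Int.cast_zero, zero_mul]
    · intro hcon
      exact absurd (Finset.mem_univ i) hcon
  ji := by
    intro i k hik P hP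
    by_contra hne
    obtain ⟨z, hz, hz0⟩ := h.independent i k hik P hne
    apply hz0
    rw [← hP z hz]
    congr 2
    funext m
    fin_cases m
    · exact j_eq (h.im_pos i z hz)
    · exact j_eq (h.im_pos k z hz)
  wa := fun i z hz => analyticAt_const.mul (h.analytic i z hz)
  wi := by
    intro m c hc
    by_contra hm
    have hpi : (2 * (Real.pi : ℂ) * Complex.I) ≠ 0 := Complex.two_pi_I_ne_zero
    obtain ⟨z, hz, hne⟩ := h.linear m hm (c / (2 * Real.pi * Complex.I))
    apply hne
    rw [eq_div_iff hpi, ← hc z hz, Finset.sum_mul]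
    exact Finset.sum_congr rfl fun i _ => by ring

/-- the name of a function -/
def nm {p : ℕ} : Fin p × Fin 5 → Name p := fun o => match o with
  | (i, 0) => Name.tau i
  | (i, 1) => Name.j i
  | (i, 2) => Name.dj i
  | (i, 3) => Name.ddj i
  | (i, 4) => Name.nome i

/-- the function with a given name -/
def mn {p : ℕ} : Name p → Fin p × Fin 5 := fun o => match o with
  | Name.tau i => (i, 0)
  | Name.j i => (i, 1)
  | Name.dj i => (i, 2)
  | Name.ddj i => (i, 3)
  | Name.nome i => (i, 4)

theorem nm_inj {p : ℕ} : Function.Injective (nm (p := p)) := by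
  have h : Function.LeftInverse (mn (p := p)) nm := by
    rintro ⟨i, m⟩
    fin_cases m <;> rfl
  exact h.injective

theorem value_eq {U : Set ℂ} {p : ℕ} {τ : Fin p → ℂ → ℂ} {S : Finset (Name p)} (h : Curve U τ S) {z : ℂ} (hz : z ∈ U)
    (o : Fin p × Fin 5) : value τ z (nm o) = Y776.AxJ.yn τ o z := by
  obtain ⟨i, m⟩ := o
  fin_cases m
  · rfl
  · exact j_eq (h.im_pos i z hz)
  · exact dj_eq (h.im_pos i z hz)
  · exact ddj_eq (h.im_pos i z hz)
  · rfl

/-- the names and the numbers -/
def eqv (p : ℕ) : Fin p × Fin 5 ≃ Name p where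
  toFun := nm
  invFun := mn
  left_inv := by
    rintro ⟨i, m⟩
    fin_cases m <;> rfl
  right_inv := by
    rintro (i | i | i | i | i) <;> rfl

noncomputable instance (p : ℕ) : Fintype (Name p) := Fintype.ofEquiv _ (eqv p)

theorem card_name (p : ℕ) : Fintype.card (Name p) = 5 * p := by
  rw [← Fintype.card_congr (eqv p), Fintype.card_prod, Fintype.card_fin, Fintype.card_fin, mul_comm]

/-- all other functions are independent -/
theorem loc {U : Set ℂ} {p : ℕ} {τ : Fin p → ℂ → ℂ} {S : Finset (Name p)} (h : Curve U τ S)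
    [Fintype {x : Name p // x ∉ S}] :
    ∀ t ∈ U, Y124.LocInd (fun (k : {x : Name p // x ∉ S}) => Y776.AxJ.yn τ (mn k.1)) t := by
  classical
  choose! P hP0 hP using h.algebraic
  refine Y776.AxJ.loc_all (fmj h) h.pos (fun k => Y776.AxJ.yn_an (fmj h) _) ?_
    (G := {2 * Real.pi * Complex.I} ∪ ⋃ x : Name p, ((P x).coeffs : Set ℂ))
    ((Set.countable_singleton _).union (Set.countable_iUnion fun x => Set.Finite.countable
      (Finset.finite_toSet _))) ?_
  · have h1 := Fintype.card_subtype_compl (fun x => x ∈ S)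
    rw [Fintype.card_congr (Equiv.refl {x : Name p // x ∉ S})] at h1
    have h2 : Fintype.card {x : Name p // x ∈ S} = p := by
      rw [Fintype.card_coe, h.card]
    rw [card_name, h2] at h1
    have h3 : Fintype.card {x : Name p // x ∉ S} = 5 * p - p := by
      rw [← h1]
    rw [h3]
    omega
  · intro F hF z hz htr
    have hall : ∀ o : Fin p × Fin 5, Y776.AxJ.yn τ o z ∈ Y685.clo F
        (insert z (Set.range fun k : {x : Name p // x ∉ S} => Y776.AxJ.yn τ (mn k.1) z)) := by
      intro o
      by_cases ho : nm o ∈ S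
      · have h1 : Y776.Fam.AlgOver F U (fun z => value τ z (nm o)) :=
          ⟨P (nm o), hP0 _ ho, fun c hc => hF (Or.inr (Set.mem_iUnion.2 ⟨nm o, hc⟩)), hP _ ho⟩
        have h2 := h1.mem le_rfl hz htr
        simp only [value_eq h hz] at h2
        exact Y685.clo_le (fun s hs => by
          rw [Set.mem_singleton_iff.1 hs]
          exact Y685.subset_clo (Set.mem_insert _ _)) h2
      · refine Y685.subset_clo (Set.mem_insert_of_mem _ ⟨⟨nm o, ho⟩, ?_⟩)
        have h4 : mn (nm o) = o := (eqv p).left_inv o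
        change Y776.AxJ.yn τ (mn (nm o)) z = _
        rw [h4]
    rintro (⟨i, m⟩ | i | i)
    · fin_cases m
      · exact hall (i, 0)
      · exact hall (i, 1)
      · exact hall (i, 2)
      · exact hall (i, 3)
    · exact mul_mem (Y685.base_clo (hF (Or.inl rfl))) (hall (i, 0))
    · exact hall (i, 4)

/-- For `n` curves (equal or different) and sets `S_l` of `p_l` functions which are algebraic over `ℂ(z)`, for all
compact sets `K_l` in `U_l` and all `m`, `g`, `d`, `A` and `ε > 0` there are `B`, `C`, `T₀` such that for all complex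
numbers `ξ_1, …, ξ_g`, all `T ≥ T₀` and all finite sets `X_l ⊆ K_l` of algebraic numbers of degree at most `m` and height at
most `T` the number of `n`-tuples in `X_1 × ⋯ × X_n` which are exceptional for the `4 p_l` functions not in `S_l`, for all
`l`, is at most `C T^ε ∑_l (number of the fields ℚ(x), x ∈ X_l) ∏_(i ≠ l) |X_i|`. -/
theorem result {n : ℕ} {p : Fin n → ℕ} (U : Fin n → Set ℂ) (τ : ∀ l, Fin (p l) → ℂ → ℂ)
    (S : ∀ l, Finset (Name (p l))) (hU : ∀ l, Curve (U l) (τ l) (S l))
    (K : Fin n → Set ℂ) (hK : ∀ l, IsCompact (K l)) (hKU : ∀ l, K l ⊆ U l) (m g d : ℕ) (A ε : ℝ) (hε : 0 < ε) :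
    ∃ B C T₀ : ℝ, ∀ (ξ : Fin g → ℂ) (T : ℝ), T₀ ≤ T → ∀ X : Fin n → Finset ℂ,
      (∀ l, ∀ x ∈ X l, x ∈ K l ∧ x ∈ Numbers m T) →
      (Exceptional d (fun l z (k : {x : Name (p l) // x ∉ S l}) => value (τ l) z k.1) X ξ A B T).Finite ∧
        ((Exceptional d (fun l z (k : {x : Name (p l) // x ∉ S l}) => value (τ l) z k.1) X ξ A B T).ncard : ℝ) ≤
          C * T ^ ε * ∑ l, (fields (X l) : ℝ) * ∏ i ∈ Finset.univ.erase l, ((X i).card : ℝ) := by
  classical
  obtain ⟨B, C, T₀, H⟩ := Q192.QD.fields_sigma (η := Fin g) m n d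
    (fun l => (hU l).isOpen) (fun l => (hU l).isPreconnected)
    (y := fun l (k : {x : Name (p l) // x ∉ S l}) => Y776.AxJ.yn (τ l) (mn k.1))
    (fun l k => Y776.AxJ.yn_an (fmj (hU l)) _) (fun l => loc (hU l)) hK hKU A ε hε
  refine ⟨B, C, T₀, fun ξ T hT X hX => H ξ T hT X hX _ ?_⟩
  rintro x ⟨hx, P, hPd, hPc, s₀, hs₀, hs⟩
  refine ⟨hx, P, hPd, hPc, s₀, hs₀, ?_⟩
  have hv : (fun y : Σ l, {x : Name (p l) // x ∉ S l} => value (τ y.1) (x y.1) y.2.1) =
      fun y : Σ l, {x : Name (p l) // x ∉ S l} => Y776.AxJ.yn (τ y.1) (mn y.2.1) (x y.1) := by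
    funext y
    have h1 := value_eq (hU y.1) (hKU y.1 (hX y.1 _ (hx y.1)).1) (mn y.2.1)
    have h2 : nm (mn y.2.1) = y.2.1 := (eqv (p y.1)).right_inv _
    rw [h2] at h1
    exact h1
  rw [hv] at hs
  exact hs

end Pool.Agent.Results.MP_ede373_nt.ManyNumberFields
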