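import Pool.Agent.Q229.RAE
import Pool.Agent.TH21.MS.Comp

/-!
# Values of `j`, `j'` and `j''` at the points `i f_k (q_l)`, for ALL rational points near almost every real point

Let `f_1, …, f_m` be real analytic and positive on `[a, ∞)`, of comparable size, such that no nontrivial integer combination
`∑ c_k f_k (t)` is `O (log t)` along a sequence tending to infinity; for instance `f_k (t) = s_k t` with positive real numbers
`s_1, …, s_m` which are linearly independent over `ℚ`. For `n`-tuples `(q_1, …, q_n)` of rational numbers we consider the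
`3 m n + 1` numbers `π` and `j (z)`, `j' (z)`, `j'' (z)`, `z = i f_k (q_l)`.

The starting file `ComparableGrowth` bounds the number of the exceptional tuples of height `T` by `T^(2(n-1)+β)` for some
`β < 2`; with the counting theorem of `Pool.Agent.Y120.RealPolys` (`β` arbitrarily small) and coverings we obtain all rational
points near all real points outside a set of small Hausdorff dimension.
-/

set_option autoImplicit false

open MeasureTheory Filter

namespace Pool.Agent.Results.MP_ede373_nt.RationalsNearRealPoints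

/-- the normalised Eisenstein series of weight `4` -/
noncomputable def E4 (τ : ℂ) : ℂ :=
  1 + 240 * ∑' m : ℕ, ((ArithmeticFunction.sigma 3 (m + 1) : ℕ) : ℂ) *
    Complex.exp (2 * (Real.pi : ℂ) * Complex.I * τ) ^ (m + 1)

/-- the normalised Eisenstein series of weight `6` -/
noncomputable def E6 (τ : ℂ) : ℂ :=
  1 - 504 * ∑' m : ℕ, ((ArithmeticFunction.sigma 5 (m + 1) : ℕ) : ℂ) *
    Complex.exp (2 * (Real.pi : ℂ) * Complex.I * τ) ^ (m + 1)

/-- the modular invariant `j = q⁻¹ + 744 + 196884 q + ⋯` -/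
noncomputable def j (τ : ℂ) : ℂ := 1728 * E4 τ ^ 3 / (E4 τ ^ 3 - E6 τ ^ 2)

/-- `j (z), j' (z), j'' (z)` (complex derivatives) -/
noncomputable def jet (z : ℂ) : Fin 3 → ℂ := ![j z, deriv j z, deriv (deriv j) z]

/-- the `3 m n + 1` numbers `π` and `j (z), j' (z), j'' (z)` at the points `z = i f_k (x_l)`, `k ≤ m`, `l ≤ n` -/
noncomputable def numbers {m n : ℕ} (f : Fin m → ℝ → ℝ) (x : Fin n → ℚ) (i : Option (Fin n × (Fin m × Fin 3))) : ℂ :=
  i.elim (Real.pi : ℂ) fun q => jet (Complex.I * (f q.2.1 (x q.1) : ℂ)) q.2.2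

/-- **Theorem.** Let `n ≥ 1`, let the functions `f_k` on `[a, ∞)` be as above, and consider the numbers `π`, `j (z)`, `j' (z)`,
`j'' (z)`, `z = i f_k (q_l)` (domain: `x_l > a`). Then for every `τ > 0` there is a set `Z ⊂ ℝ^n` of Hausdorff dimension at most
`2 (n - 1) / τ` (dimension `0` for `n = 1`), and of Lebesgue measure zero if `2 (n - 1) < n τ`, such that for all `x ∉ Z` in the domain,
all `d`, `A`, some `B` and all sufficiently large `T` the following holds for ALL rational points `q` with denominators at most `T`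
and `|x_j - q_j| ≤ T ^ (-τ)`: every nonzero integer polynomial of degree at most `d` in each variable with coefficients at
most `T ^ A` takes at these numbers a value larger than `T ^ (-B)` in absolute value. -/
theorem result (m n : ℕ) (hn : 1 ≤ n) (a K : ℝ) (f : Fin m → ℝ → ℝ)
    (hf : ∀ k, AnalyticOnNhd ℝ (f k) (Set.Ici a)) (hpos : ∀ k, ∀ t, a ≤ t → 0 < f k t)
    (hK : ∀ k l, ∀ᶠ t in atTop, f l t ≤ K * f k t)
    (hH : ∀ c : Fin m → ℤ, c ≠ 0 → Tendsto (fun t => |∑ k, (c k : ℝ) * f k t| / Real.log t) atTop atTop) (τ : ℝ) (hτ : 0 < τ) :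
    ∃ Z : Set (Fin n → ℝ), dimH Z ≤ ENNReal.ofReal (2 * ((n : ℝ) - 1) / τ) ∧
      (2 * ((n : ℝ) - 1) < n * τ → volume Z = 0) ∧
      ∀ x : Fin n → ℝ, (∀ l, a < x l) → x ∉ Z → ∀ (d : ℕ) (A : ℝ), ∃ B : ℝ, ∀ᶠ T : ℝ in atTop,
        ∀ q : Fin n → ℚ, (∀ j, ((q j).den : ℝ) ≤ T ∧ |x j - q j| ≤ T ^ (-τ)) →
        ∀ P : MvPolynomial (Option (Fin n × (Fin m × Fin 3))) ℤ, P ≠ 0 → (∀ z, P.degreeOf z ≤ d) →
          (∀ u, |((P.coeff u : ℤ) : ℝ)| ≤ T ^ A) → T ^ (-B) < ‖MvPolynomial.aeval (numbers f q) P‖ := by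
  refine Pool.Agent.Q229.RA.masterO hn (fun _ p t => Pool.Agent.TH21.MS.uj f p t)
    (fun p : Fin m × Fin 3 => Pool.Agent.TH21.MS.sj p.2) (fun _ => Set.Ioi a) (fun _ => isOpen_Ioi)
    (fun _ p => (Pool.Agent.TH21.MS.uj_an f a hf hpos p).mono Set.Ioi_subset_Ici_self) ?_
    (fun q => numbers f q) (fun _ => rfl) ?_ τ hτ
  · intro l a' b' hab hsub d
    obtain ⟨h, hLB⟩ := Pool.Agent.TH21.MS.LB_comp f a hf hpos K hK hH
    exact Pool.Agent.TH21.MS.rindep_of_LB (Pool.Agent.TH21.MS.uj f) h a (Pool.Agent.TH21.MS.uj_an f a hf hpos) hLB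
      d a' b' (le_of_lt (hsub ⟨le_rfl, hab.le⟩)) hab
  · intro q hq l p
    exact Pool.Agent.TH21.MS.jet_I (f p.1 (q l)) (hpos _ _ (le_of_lt (hq l))) p.2

end Pool.Agent.Results.MP_ede373_nt.RationalsNearRealPoints
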