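import Pool.Agent.Q311.LN.J

/-!
# The modular Schanuel conjecture with derivatives: algebraic families of several variables over all number fields

Let `τ_1, …, τ_p` be analytic functions on a connected open set `U` of the affine space with coordinates indexed by the
finite set `X` (of any dimension), with values in the upper half-plane, and let `p` of the `5 p` functions

  `τ_i(x)`, `j(τ_i(x))`, `j'(τ_i(x))`, `j''(τ_i(x))`, `exp(2 π i τ_i(x))`

be algebraic over the field of rational functions of `x`; for instance the points `τ_i(x)` themselves, or for every `i`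
the point `τ_i(x)` or the nome `exp(2 π i τ_i(x))` (at most one of the invariants `j(τ_i(x))` can be algebraic under the
condition below). Examples with algebraic points are `x_1, …, x_m`, `x_k + x_l`, `x_k x_l`, …: the number `p` of the points
can be larger than the dimension of the space.

Genericity is required along **one** complex line which meets `U` only: along it no nontrivial combination of the `τ_i`
with integral coefficients is constant and `j(τ_i)`, `j(τ_k)` are algebraically independent over `ℂ` for `i ≠ k`.

The theorem: there are bounds `ω T → ∞` such that for all number fields `K` of degree at most `ω T`, at all points `s` of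
`U` with coordinates in `K` of height at most `T` outside few hypersurfaces of small degree, the remaining `4 p` numbers do
not satisfy any nontrivial relation of degree at most `ω T` whose coefficients are combinations of arbitrary complex
constants `ξ` (for instance the values of `j'` at special points) with integral coefficients of `K` of size at most
`T ^ ω T`. If the points are algebraic then the `3 p` numbers `j(τ_i(s))`, `j'(τ_i(s))`, `j''(τ_i(s))` of the modular
Schanuel conjecture with derivatives are among them. (Points with special or equivalent coordinates may lie on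
hypersurfaces, so these cannot be avoided.)

In the theorem of `MP_ede373_nt.AlgebraicPointsOrNomes` (parts of which are used here) the functions are functions of one
variable and the degrees of the number fields are bounded.
-/

set_option autoImplicit false

open Pool.Agent.Q311.MV Pool.Agent.Q311.LN

namespace Pool.Agent.Results.MP_ede373_nt.SeveralVariables

/-- The names of the functions. -/
inductive Name (p : ℕ) : Type
  | tau : Fin p → Name p
  | j : Fin p → Name p
  | dj : Fin p → Name p
  | ddj : Fin p → Name p
  | nome : Fin p → Name p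

/-- The values `τ_i(x)`, `j(τ_i(x))`, `j'(τ_i(x))`, `j''(τ_i(x))` (complex derivatives of `j`) and
`exp(2 π i τ_i(x))`. -/
noncomputable def value {X : Type} {p : ℕ} (τ : Fin p → (X → ℂ) → ℂ) (x : X → ℂ) : Name p → ℂ
  | Name.tau i => τ i x
  | Name.j i => j (τ i x)
  | Name.dj i => deriv j (τ i x)
  | Name.ddj i => deriv (deriv j) (τ i x)
  | Name.nome i => Complex.exp (2 * (Real.pi : ℂ) * Complex.I * τ i x)

/-- An analytic map `U → ℍ^p`, a line, and `p` of the `5 p` functions which are algebraic. -/
structure Family {X : Type} [Fintype X] (U : Set (X → ℂ)) {p : ℕ} (τ : Fin p → (X → ℂ) → ℂ) (a v : X → ℂ) (S : Finset (Name p)) :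
    Prop where
  pos : 0 < p
  isPreconnected : IsPreconnected U
  analytic : ∀ i, AnalyticOnNhd ℂ (τ i) U
  im_pos : ∀ i, ∀ x ∈ U, 0 < (τ i x).im
  /-- for every disc of the line in `U`: no nontrivial combination of the `τ i` with integral coefficients is constant on
  it, and two of the functions `j(τ_i)` are algebraically independent over `ℂ` -/
  line : ∃ (t₀ : ℂ) (r : ℝ), 0 < r ∧ (∀ t ∈ Metric.ball t₀ r, pt a v t ∈ U) ∧
    (∀ m : Fin p → ℤ, m ≠ 0 → ∀ c : ℂ, ∃ t ∈ Metric.ball t₀ r, ∑ i, (m i : ℂ) * τ i (pt a v t) ≠ c) ∧
    ∀ i k, i ≠ k → ∀ P : MvPolynomial (Fin 2) ℂ, P ≠ 0 →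
      ∃ t ∈ Metric.ball t₀ r, MvPolynomial.eval ![j (τ i (pt a v t)), j (τ k (pt a v t))] P ≠ 0
  card : S.card = p
  algebraic : ∀ x ∈ S, Algebraic U (fun z => value τ z x)

/-- the name of a function -/
def nm {p : ℕ} : Fin p × Fin 5 → Name p := fun o => match o with
  | (i, 0) => Name.tau i
  | (i, 1) => Name.j i
  | (i, 2) => Name.dj i
  | (i, 3) => Name.ddj i
  | (i, 4) => Name.nome i

/-- the function with a given name -/
def mn {p : ℕ} : Name p → Fin p × Fin 5 := fun o => match o with
  | Name.tau i => (i, 0)
  | Name.j i => (i, 1)
  | Name.dj i => (i, 2)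
  | Name.ddj i => (i, 3)
  | Name.nome i => (i, 4)

/-- the names and the numbers -/
def eqv (p : ℕ) : Fin p × Fin 5 ≃ Name p where
  toFun := nm
  invFun := mn
  left_inv := by
    rintro ⟨i, m⟩
    fin_cases m <;> rfl
  right_inv := by
    rintro (i | i | i | i | i) <;> rfl

noncomputable instance (p : ℕ) : Fintype (Name p) := Fintype.ofEquiv _ (eqv p)

noncomputable instance (p : ℕ) : DecidableEq (Name p) := Classical.decEq _

theorem card_name (p : ℕ) : Fintype.card (Name p) = 5 * p := by
  rw [← Fintype.card_congr (eqv p), Fintype.card_prod, Fintype.card_fin, Fintype.card_fin, mul_comm]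

/-- the functions of one variable on the line, as functions of the library -/
theorem value_eq {X : Type} {p : ℕ} {τ : Fin p → (X → ℂ) → ℂ} {a v : X → ℂ} {t : ℂ}
    (h : ∀ i, 0 < (τ i (pt a v t)).im) (o : Fin p × Fin 5) :
    value τ (pt a v t) (nm o) = Y776.AxJ.yn (fun i t => τ i (pt a v t)) o t := by
  obtain ⟨i, m⟩ := o
  fin_cases m
  · rfl
  · exact j_eq (h i)
  · exact dj_eq (h i)
  · exact ddj_eq (h i)
  · rfl

theorem value_an {X : Type} [Fintype X] {U : Set (X → ℂ)} {p : ℕ} {τ : Fin p → (X → ℂ) → ℂ} (hU : IsOpen U)
    (hτ : ∀ i, AnalyticOnNhd ℂ (τ i) U) (him : ∀ i, ∀ x ∈ U, 0 < (τ i x).im) (n : Name p) :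
    AnalyticOnNhd ℂ (fun x => value τ x n) U := by
  rcases n with i | i | i | i | i
  · exact hτ i
  · exact (jet_an hU (hτ i) (him i)).1
  · exact (jet_an hU (hτ i) (him i)).2.1
  · exact (jet_an hU (hτ i) (him i)).2.2
  · exact fun x hx => (analyticAt_const.mul (hτ i x hx)).cexp

/-- the functions with names outside `S` are independent -/
theorem indep {X : Type} [Fintype X] [DecidableEq X] {U : Set (X → ℂ)} {p : ℕ} {τ : Fin p → (X → ℂ) → ℂ}
    {a v : X → ℂ} {S : Finset (Name p)} (hU : IsOpen U) (h : Family U τ a v S) :
    IndepM U fun (n : {n : Name p // n ∉ S}) x => value τ x n := by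
  classical
  obtain ⟨t₀, r, hr, hin, hlin, hj⟩ := h.line
  have him : ∀ i, ∀ t ∈ Metric.ball t₀ r, 0 < (τ i (pt a v t)).im := fun i t ht => h.im_pos i _ (hin t ht)
  have hta : ∀ i, AnalyticOnNhd ℂ (fun t => τ i (pt a v t)) (Metric.ball t₀ r) := fun i t ht =>
    AnalyticAt.fun_comp (g := τ i) (f := pt a v) (h.analytic i _ (hin t ht)) (pt_an a v t)
  have hF : Y776.AxJ.Fmj (Metric.ball t₀ r) (fun i t => τ i (pt a v t))
      (fun i t => 2 * Real.pi * Complex.I * τ i (pt a v t)) := by
    refine ⟨Metric.isOpen_ball, (convex_ball t₀ r).isPreconnected, ⟨t₀, Metric.mem_ball_self hr⟩, hta, him, ?_, ?_,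
      fun i t ht => analyticAt_const.mul (hta i t ht), ?_⟩
    · intro i c
      obtain ⟨z, hz, hne⟩ := hlin (Pi.single i 1) (by
        intro h0
        have := congrFun h0 i
        rw [Pi.single_eq_same] at this
        exact one_ne_zero this) c
      refine ⟨z, hz, fun h1 => hne ?_⟩
      rw [← h1, Finset.sum_eq_single i]
      · rw [Pi.single_eq_same, Int.cast_one, one_mul]
      · intro k _ hk
        rw [Pi.single_eq_of_ne hk, Int.cast_zero, zero_mul]
      · intro hcon
        exact absurd (Finset.mem_univ i) hcon
    · intro i k hik P hP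
      by_contra hne
      obtain ⟨z, hz, hz0⟩ := hj i k hik P hne
      apply hz0
      rw [← hP z hz]
      congr 2
      funext m
      fin_cases m
      · exact j_eq (him i z hz)
      · exact j_eq (him k z hz)
    · intro m c hc
      by_contra hm
      have hpi : (2 * (Real.pi : ℂ) * Complex.I) ≠ 0 := Complex.two_pi_I_ne_zero
      obtain ⟨z, hz, hne⟩ := hlin m hm (c / (2 * Real.pi * Complex.I))
      apply hne
      rw [eq_div_iff hpi, ← hc z hz, Finset.sum_mul]
      exact Finset.sum_congr rfl fun i _ => by ring
  obtain ⟨e, he, hL⟩ := Y776.AxJ.exists_loc_nome hF h.pos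
  have hI : IndepM U fun k x => value τ x (nm (e k)) := by
    refine Q311.LN.indep_of_line hU (fun i => value_an hU h.analytic h.im_pos _) (a := a) (v := v) (t0 := t₀)
      (hin t₀ (Metric.mem_ball_self hr)) ?_
    have h1 := hL t₀ (Metric.mem_ball_self hr)
    intro P hP
    apply h1
    filter_upwards [hP, Metric.isOpen_ball.mem_nhds (Metric.mem_ball_self hr)] with t ht htb
    rw [← ht]
    congr 2
    funext o
    rcases o with _ | k
    · rfl
    · exact (value_eq (fun i => him i t htb) (e k)).symm
  refine indep_compl (m := 4 * p) (e := fun k => nm (e k)) (fun k l hkl => he ((eqv p).injective hkl)) hI h.algebraic ?_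
  rw [card_name, h.card]
  ring

/-- Let `τ : U → ℍ^p` be an analytic map on the connected open set `U` and let `p` of the `5 p` functions `τ_i`, `j(τ_i)`,
`j'(τ_i)`, `j''(τ_i)`, `exp(2 π i τ_i)` be algebraic over the rational functions; genericity is required along one line.
There is `ω → ∞` such that for all large `T`, all number fields `K` of degree at most `ω T`, all embeddings and all
complex numbers `ξ a`, `a < ω T`: the exceptional points lie on at most `T ^ (1 / ω T)` hypersurfaces of degree at most
`T ^ (1 / ω T)`, and there are at most `T ^ (1 / ω T) * N ^ (|X| - 1)` of them, `N` being the number of elements of `K` of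
height at most `T`. -/
theorem result {X : Type} [Fintype X] [DecidableEq X] [Nonempty X] (U : Set (X → ℂ)) (hU : IsOpen U) {p : ℕ}
    (τ : Fin p → (X → ℂ) → ℂ) (a v : X → ℂ) (S : Finset (Name p)) (h : Family U τ a v S) :
    AlmostAllValues U fun (n : {n : Name p // n ∉ S}) x => value τ x n := by
  obtain ⟨t₀, r, hr, hin, -, -⟩ := h.line
  exact almostAll_of_indep h.isPreconnected hU ⟨_, hin t₀ (Metric.mem_ball_self hr)⟩
    (fun n => value_an hU h.analytic h.im_pos n.1) (indep hU h)

end Pool.Agent.Results.MP_ede373_nt.SeveralVariables
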